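import Mathlib

/-!
# KQ: a unit which moves a fraction away from the integers
-/

set_option autoImplicit false

namespace Pool.Agent.Helper10.KQ

/-- a unit modulo `d` between `d / 6` and `d / 2` -/
theorem exists_mid10 (d : ℕ) (hd : 2 ≤ d) : ∃ c : ℕ, c.Coprime d ∧ d ≤ 6 * c ∧ 2 * c ≤ d := by
  rcases Nat.even_or_odd d with h | h
  · rcases Nat.lt_or_ge 2 d with h2 | h2
    · obtain ⟨e, he⟩ := h
      rcases Nat.even_or_odd e with h4 | h4
      · obtain ⟨q, hq⟩ := h4
        refine ⟨e - 1, ?_, by omega, by omega⟩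
        have h5 : (e - 1).gcd d ∣ 2 := by
          have h6 : d = 2 * (e - 1) + 2 := by omega
          exact (Nat.dvd_add_right (Dvd.dvd.mul_left (Nat.gcd_dvd_left (e - 1) d) 2)).1
            (h6 ▸ Nat.gcd_dvd_right (e - 1) d)
        have h8 : ¬ 2 ∣ (e - 1).gcd d := fun h9 => by
          have := h9.trans (Nat.gcd_dvd_left (e - 1) d)
          omega
        rcases (Nat.dvd_prime Nat.prime_two).1 h5 with h9 | h9
        · exact h9
        · exact absurd (h9 ▸ dvd_rfl) h8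
      · obtain ⟨q, hq⟩ := h4
        refine ⟨e - 2, ?_, by omega, by omega⟩
        have h5 : (e - 2).gcd d ∣ 4 := by
          have h6 : d = 2 * (e - 2) + 4 := by omega
          exact (Nat.dvd_add_right (Dvd.dvd.mul_left (Nat.gcd_dvd_left (e - 2) d) 2)).1
            (h6 ▸ Nat.gcd_dvd_right (e - 2) d)
        have h8 : ¬ 2 ∣ (e - 2).gcd d := fun h9 => by
          have := h9.trans (Nat.gcd_dvd_left (e - 2) d)
          omega
        have h9 : (e - 2).gcd d ∣ 2 ^ 2 := h5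
        obtain ⟨i, hi, h10⟩ := (Nat.dvd_prime_pow Nat.prime_two).1 h9
        rcases Nat.eq_zero_or_pos i with h11 | h11
        · rw [h11, pow_zero] at h10
          exact h10
        · exact absurd (h10 ▸ dvd_pow_self 2 h11.ne') h8
    · have : d = 2 := by omega
      subst this
      exact ⟨1, Nat.coprime_one_left _, by omega, by omega⟩
  · obtain ⟨q, hq⟩ := h
    refine ⟨q, ?_, by omega, by omega⟩
    have h5 : q.gcd d ∣ 1 := by
      have h6 : d = 2 * q + 1 := by omega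
      exact (Nat.dvd_add_right (Dvd.dvd.mul_left (Nat.gcd_dvd_left q d) 2)).1 (h6 ▸ Nat.gcd_dvd_right q d)
    exact Nat.dvd_one.1 h5

/-- **P2** -/
theorem exists_far {M : ℕ} (hM : 0 < M) {γ : ℚ} (h : ∃ z : ℤ, (M : ℚ) * γ = z) (hγ : ∀ z : ℤ, γ ≠ z) :
    ∃ t : ℕ, t.Coprime M ∧ ∀ k : ℤ, 1 / 6 ≤ |(t : ℚ) * γ - k| := by
  obtain ⟨z, hz⟩ := h
  have hd0 : γ.den ≠ 0 := γ.den_ne_zero
  have hd0' : (γ.den : ℚ) ≠ 0 := Nat.cast_ne_zero.2 hd0
  have hγd : γ * γ.den = γ.num := Rat.mul_den_eq_num γ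
  -- the denominator
  have hd2 : 2 ≤ γ.den := by
    by_contra hcon
    have h1 : γ.den = 1 := by omega
    refine hγ γ.num ?_
    rw [h1, Nat.cast_one, mul_one] at hγd
    exact hγd
  have hcop : IsCoprime γ.num (γ.den : ℤ) := by
    rw [Int.isCoprime_iff_nat_coprime, Int.natAbs_natCast]
    exact γ.reduced
  have hdM : γ.den ∣ M := by
    have h1 : (M : ℤ) * γ.num = z * γ.den := by
      have h2 : ((M : ℤ) * γ.num : ℚ) = z * γ.den := by
        rw [← hγd, ← hz]
        push_cast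
        ring
      exact_mod_cast h2
    have h2 : (γ.den : ℤ) ∣ (M : ℤ) * γ.num := ⟨z, by rw [h1, mul_comm]⟩
    exact_mod_cast hcop.symm.dvd_of_dvd_mul_right h2
  obtain ⟨c, hc, hc6, hc2⟩ := exists_mid10 γ.den hd2
  have : NeZero M := ⟨hM.ne'⟩
  have : NeZero γ.den := ⟨hd0⟩
  -- the unit
  have hau : IsUnit ((γ.num : ZMod γ.den)) := by
    obtain ⟨u, v, huv⟩ := hcop
    refine IsUnit.of_mul_eq_one (u : ZMod γ.den) ?_
    have h1 := congrArg (fun x : ℤ => (x : ZMod γ.den)) huv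
    simp only [Int.cast_add, Int.cast_mul, Int.cast_natCast, ZMod.natCast_self, mul_zero, add_zero, Int.cast_one] at h1
    rw [mul_comm]
    exact h1
  obtain ⟨au, hau⟩ := hau
  obtain ⟨T, hT⟩ := ZMod.unitsMap_surjective hdM (ZMod.unitOfCoprime c hc * au⁻¹)
  have hT2 : (((T : ZMod M).val : ℕ) : ZMod γ.den) * (γ.num : ZMod γ.den) = (c : ZMod γ.den) := by
    have h1 := congrArg (fun x : (ZMod γ.den)ˣ => (x : ZMod γ.den)) hT
    simp only [ZMod.unitsMap_val, Units.val_mul, ZMod.coe_unitOfCoprime] at h1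
    have h2 : (((T : ZMod M).val : ℕ) : ZMod γ.den) = ZMod.cast (T : ZMod M) := by
      rw [ZMod.natCast_val]
    rw [h2, h1, ← hau, mul_assoc, Units.inv_mul, mul_one]
  refine ⟨(T : ZMod M).val, ZMod.val_coe_unit_coprime T, fun k => ?_⟩
  generalize (T : ZMod M).val = t at hT2
  have h3 : ((((t : ℤ) * γ.num - c : ℤ)) : ZMod γ.den) = 0 := by
    push_cast
    rw [hT2, sub_self]
  obtain ⟨q, hq⟩ := (ZMod.intCast_zmod_eq_zero_iff_dvd _ _).1 h3
  have hdpos : (0 : ℚ) < γ.den := by exact_mod_cast Nat.pos_of_ne_zero hd0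
  have h4 : (t : ℚ) * γ = (c : ℚ) / γ.den + q := by
    have h5 : ((t : ℤ) * γ.num - c : ℚ) = γ.den * q := by exact_mod_cast hq
    push_cast at h5
    apply mul_right_cancel₀ hd0'
    rw [mul_assoc, hγd, add_mul, div_mul_cancel₀ _ hd0']
    linarith
  have h6 : (1 / 6 : ℚ) ≤ (c : ℚ) / γ.den := by
    rw [div_le_div_iff₀ (by norm_num) hdpos]
    have : (γ.den : ℚ) ≤ 6 * c := by exact_mod_cast hc6
    linarith
  have h7 : (c : ℚ) / γ.den ≤ 1 / 2 := by
    rw [div_le_div_iff₀ hdpos (by norm_num)]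
    have : (2 * c : ℚ) ≤ γ.den := by exact_mod_cast hc2
    linarith
  rw [h4]
  rcases le_or_gt 0 (q - k) with h8 | h8
  · have h9 : (0 : ℚ) ≤ (q : ℚ) - k := by exact_mod_cast h8
    rw [abs_of_nonneg (by linarith)]
    linarith
  · have h9 : (q : ℚ) - k ≤ -1 := by
      have : q - k ≤ -1 := by omega
      exact_mod_cast this
    rw [abs_of_nonpos (by linarith)]
    linarith

end Pool.Agent.Helper10.KQ
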